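import Pool.Agent.H77.PUC.StmtsE

/-!
# GLA: gluing at a type 2 point
-/

universe u

namespace PUC

open Polynomial Filter Topology Metric

section Van
variable {K : Type u} [Field K]

theorem GLA_van_of {P Q : K[X]} (hQ : Q ≠ 0) (hPQ : P.degree < Q.degree) :
    VanInf (algebraMap K[X] (RatFunc K) P / algebraMap K[X] (RatFunc K) Q) := by
  unfold VanInf
  set h := algebraMap K[X] (RatFunc K) P / algebraMap K[X] (RatFunc K) Q with hh
  have hd : h.denom ≠ 0 := RatFunc.denom_ne_zero h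
  have e1 : h.num * Q = P * h.denom := by
    have h1 : algebraMap K[X] (RatFunc K) h.num / algebraMap K[X] (RatFunc K) h.denom =
      algebraMap K[X] (RatFunc K) P / algebraMap K[X] (RatFunc K) Q := RatFunc.num_div_denom h
    have hQ' : algebraMap K[X] (RatFunc K) Q ≠ 0 := by
      simpa using hQ
    have hd' : algebraMap K[X] (RatFunc K) h.denom ≠ 0 := by
      simpa using hd
    rw [div_eq_div_iff hd' hQ', ← map_mul, ← map_mul] at h1
    exact RatFunc.algebraMap_injective K h1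
  have e2 := congrArg Polynomial.degree e1
  rw [degree_mul, degree_mul] at e2
  by_contra hcon
  rw [not_lt] at hcon
  have hdb : h.denom.degree ≠ ⊥ := by rwa [Ne, degree_eq_bot]
  have h3 : P.degree + h.denom.degree < Q.degree + h.denom.degree :=
    WithBot.add_lt_add_right hdb hPQ
  rw [← e2, add_comm Q.degree] at h3
  exact absurd h3 (not_lt.2 (by gcongr))

theorem GLA_van_zero : VanInf (0 : RatFunc K) := by
  unfold VanInf; simp

theorem GLA_van_add {h h' : RatFunc K} (hv : VanInf h) (hv' : VanInf h') : VanInf (h + h') := by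
  have hd : h.denom ≠ 0 := RatFunc.denom_ne_zero h
  have hd' : h'.denom ≠ 0 := RatFunc.denom_ne_zero h'
  have e : h + h' = algebraMap K[X] (RatFunc K) (h.num * h'.denom + h.denom * h'.num) /
      algebraMap K[X] (RatFunc K) (h.denom * h'.denom) := by
    have h1 : algebraMap K[X] (RatFunc K) h.denom ≠ 0 := by simpa using hd
    have h2 : algebraMap K[X] (RatFunc K) h'.denom ≠ 0 := by simpa using hd'
    conv_lhs => rw [← RatFunc.num_div_denom h, ← RatFunc.num_div_denom h']
    rw [div_add_div _ _ h1 h2, map_add, map_mul, map_mul, map_mul]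
  rw [e]
  apply GLA_van_of (mul_ne_zero hd hd')
  unfold VanInf at hv hv'
  rw [degree_mul]
  have hdb : h.denom.degree ≠ ⊥ := by rwa [Ne, degree_eq_bot]
  have hdb' : h'.denom.degree ≠ ⊥ := by rwa [Ne, degree_eq_bot]
  refine lt_of_le_of_lt (degree_add_le _ _) (max_lt ?_ ?_)
  · rw [degree_mul]
    exact WithBot.add_lt_add_right hdb' hv
  · rw [degree_mul]
    exact WithBot.add_lt_add_left hdb hv'

theorem GLA_van_neg {h : RatFunc K} (hv : VanInf h) : VanInf (-h) := by
  have hd : h.denom ≠ 0 := RatFunc.denom_ne_zero h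
  have e : -h = algebraMap K[X] (RatFunc K) (-h.num) / algebraMap K[X] (RatFunc K) h.denom := by
    conv_lhs => rw [← RatFunc.num_div_denom h]
    rw [map_neg, neg_div]
  rw [e]
  apply GLA_van_of hd
  rw [degree_neg]
  exact hv

theorem GLA_van_sub {h h' : RatFunc K} (hv : VanInf h) (hv' : VanInf h') : VanInf (h - h') := by
  rw [sub_eq_add_neg]
  exact GLA_van_add hv (GLA_van_neg hv')

theorem GLA_van_sum {ι : Type*} (s : Finset ι) (f : ι → RatFunc K) (h : ∀ i ∈ s, VanInf (f i)) :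
    VanInf (∑ i ∈ s, f i) := by
  classical
  induction s using Finset.induction_on with
  | empty => simpa using GLA_van_zero
  | insert a s ha ih =>
    rw [Finset.sum_insert ha]
    exact GLA_van_add (h a (Finset.mem_insert_self _ _))
      (ih fun i hi => h i (Finset.mem_insert_of_mem hi))

theorem GLA_reg_sum (hEva : SEva.{u}) (a : K) {ι : Type*} (s : Finset ι) (f : ι → RatFunc K)
    (h : ∀ i ∈ s, reg a (f i)) :
    reg a (∑ i ∈ s, f i) ∧ ev a (∑ i ∈ s, f i) = ∑ i ∈ s, ev a (f i) := by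
  classical
  induction s using Finset.induction_on with
  | empty =>
    have h0 := (hEva K a 0 0).2.2 0
    simpa using h0
  | insert b s hb ih =>
    have h1 := h b (Finset.mem_insert_self _ _)
    have h2 := ih fun i hi => h i (Finset.mem_insert_of_mem hi)
    have h3 := (hEva K a (f b) (∑ i ∈ s, f i)).1 h1 h2.1
    rw [Finset.sum_insert hb, Finset.sum_insert hb]
    exact ⟨h3.1, by rw [h3.2.1, h2.2]⟩

theorem GLA_reg_add (hEva : SEva.{u}) {a : K} {h h' : RatFunc K} (h1 : reg a h) (h2 : reg a h') :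
    reg a (h + h') := ((hEva K a h h').1 h1 h2).1

theorem GLA_ev_add (hEva : SEva.{u}) {a : K} {h h' : RatFunc K} (h1 : reg a h) (h2 : reg a h') :
    ev a (h + h') = ev a h + ev a h' := ((hEva K a h h').1 h1 h2).2.1

theorem GLA_reg_sub (hEva : SEva.{u}) {a : K} {h h' : RatFunc K} (h1 : reg a h) (h2 : reg a h') :
    reg a (h - h') := ((hEva K a h h').1 h1 h2).2.2.1

theorem GLA_ev_sub (hEva : SEva.{u}) {a : K} {h h' : RatFunc K} (h1 : reg a h) (h2 : reg a h') :
    ev a (h - h') = ev a h - ev a h' := ((hEva K a h h').1 h1 h2).2.2.2.1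

end Van

section Ultra
variable {K : Type u} [NormedField K] [IsUltrametricDist K]

theorem GLA_norm_add {a b : K} {η : ℝ} (ha : ‖a‖ ≤ η) (hb : ‖b‖ ≤ η) : ‖a + b‖ ≤ η :=
  (IsUltrametricDist.norm_add_le_max _ _).trans (max_le ha hb)

theorem GLA_norm_sub {a b : K} {η : ℝ} (ha : ‖a‖ ≤ η) (hb : ‖b‖ ≤ η) : ‖a - b‖ ≤ η := by
  rw [sub_eq_add_neg]
  exact GLA_norm_add ha (by rwa [norm_neg])

/-- representatives of the residue classes -/
theorem GLA_rep (S : Finset K) (r : ℝ) (hr : 0 < r) : ∃ R : Finset K, R ⊆ S ∧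
    (∀ a ∈ R, ∀ b ∈ R, a ≠ b → r ≤ ‖a - b‖) ∧ ∀ t ∈ S, ∃ s ∈ R, ‖t - s‖ < r := by
  classical
  induction S using Finset.induction_on with
  | empty => exact ⟨∅, by simp, by simp, by simp⟩
  | insert x S hx ih =>
    obtain ⟨R, h1, h2, h3⟩ := ih
    by_cases hc : ∃ s ∈ R, ‖x - s‖ < r
    · refine ⟨R, h1.trans (Finset.subset_insert _ _), h2, ?_⟩
      intro t ht
      rcases Finset.mem_insert.1 ht with rfl | ht
      · exact hc
      · exact h3 t ht
    · push Not at hc
      refine ⟨insert x R, Finset.insert_subset_insert _ h1, ?_, ?_⟩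
      · intro a ha b hb hab
        rcases Finset.mem_insert.1 ha with ha' | ha'
        · rcases Finset.mem_insert.1 hb with hb' | hb'
          · exact absurd (ha'.trans hb'.symm) hab
          · rw [ha']; exact hc b hb'
        · rcases Finset.mem_insert.1 hb with hb' | hb'
          · rw [hb', norm_sub_rev]; exact hc a ha'
          · exact h2 a ha' b hb' hab
      · intro t ht
        rcases Finset.mem_insert.1 ht with rfl | ht
        · exact ⟨t, Finset.mem_insert_self _ _, by simpa using hr⟩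
        · obtain ⟨s, hs, hts⟩ := h3 t ht
          exact ⟨s, Finset.mem_insert_of_mem hs, hts⟩

theorem GLA_lt_of {a b c : K} {r : ℝ} (h1 : ‖a - b‖ < r) (h2 : ‖b - c‖ < r) : ‖a - c‖ < r := by
  have : a - c = (a - b) + (b - c) := by ring
  rw [this]
  exact lt_of_le_of_lt (IsUltrametricDist.norm_add_le_max _ _) (max_lt h1 h2)

theorem GLA_le_of {a b c : K} {r : ℝ} (h1 : ‖a - b‖ ≤ r) (h2 : ‖b - c‖ ≤ r) : ‖a - c‖ ≤ r := by
  have : a - c = (a - b) + (b - c) := by ring
  rw [this]
  exact (IsUltrametricDist.norm_add_le_max _ _).trans (max_le h1 h2)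

end Ultra

theorem sGla (hPff : SPff.{u}) (hPfd : SPfd.{u}) (hOpo : SOpo.{u}) (hOpc : SOpc.{u})
    (hEva : SEva.{u}) : SGla.{u} := by
  classical
  intro K _ _ _ H η c ϖ hη hϖ hA hB hC
  obtain ⟨Sa, ba, hba⟩ := hA
  obtain ⟨r1, Sg, bg, hr1, hbg, hbg'⟩ := hC
  set r := ‖ϖ‖ with hrdef
  have hr : 0 < r := norm_pos_iff.2 hϖ
  obtain ⟨R, hRS, hRd, hRc⟩ := GLA_rep (Sa.filter (· ∈ closedBall c r)) r hr
  set n := R.card with hn
  let σ : Fin n → K := fun i => (R.equivFin.symm i : K)
  have hσR : ∀ i, σ i ∈ R := fun i => (R.equivFin.symm i).2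
  have hσ : ∀ i, σ i ∈ closedBall c r := fun i => (Finset.mem_filter.1 (hRS (hσR i))).2
  have hσn : ∀ i, ‖σ i - c‖ ≤ r := fun i => by simpa [dist_eq_norm] using hσ i
  have hσd : ∀ i j, i ≠ j → r ≤ ‖σ i - σ j‖ := by
    intro i j hij
    apply hRd _ (hσR i) _ (hσR j)
    intro h
    apply hij
    exact R.equivFin.symm.injective (Subtype.ext h)
  have hσs : ∀ s ∈ R, ∃ i, σ i = s := fun s hs =>
    ⟨R.equivFin ⟨s, hs⟩, by simp [σ]⟩
  have hσc : ∀ t ∈ Sa, ‖t - c‖ ≤ r → ∃ i, ‖t - σ i‖ < r := by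
    intro t ht htc
    obtain ⟨s, hs, hts⟩ := hRc t (Finset.mem_filter.2 ⟨ht, by simpa [dist_eq_norm] using htc⟩)
    obtain ⟨i, rfl⟩ := hσs s hs
    exact ⟨i, hts⟩
  choose ρ T β hρ hβ1 hβ2 using fun i => hB (σ i) (hσ i)
  choose p q hpq hp hpr hqr using fun i => hPfd K (β i) (ball (σ i) r)
  obtain ⟨g1, g2, hg, hg1, hg1r, hg2r⟩ := hPfd K bg (closedBall c r)
  obtain ⟨α, α', hα, hαv, hαr, hα'r, hreg⟩ := hPff K ba n (fun i => ball (σ i) r) (by
    intro i j hij
    rw [Set.disjoint_left]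
    intro a ha hb
    rw [mem_ball, dist_eq_norm] at ha hb
    have := GLA_lt_of (by rw [norm_sub_rev]; exact ha : ‖σ i - a‖ < r) hb
    exact absurd this (not_lt.2 (hσd i j hij)))
  -- a generic point is in the good set of `ba`
  have hgen : ∀ a, ‖a - c‖ ≤ r → (∀ i, a ∉ ball (σ i) r) → a ∈ Gen c r Sa := by
    intro a ha hi
    refine ⟨ha, fun t ht => ?_⟩
    by_contra hlt
    rw [not_le] at hlt
    have htc : ‖t - c‖ ≤ r := GLA_le_of (by rw [norm_sub_rev]; exact hlt.le) ha
    obtain ⟨i, hi'⟩ := hσc t ht htc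
    apply hi i
    rw [mem_ball, dist_eq_norm]
    exact GLA_lt_of hlt hi'
  have hα'reg : ∀ a, ‖a - c‖ ≤ r → reg a α' := by
    intro a ha
    by_cases hi : ∃ i, a ∈ ball (σ i) r
    · obtain ⟨i, hi⟩ := hi
      exact hα'r i a hi
    · push Not at hi
      exact (hreg a (hba a (hgen a ha hi)).1).2
  have hnot : ∀ i j, i ≠ j → ∀ a ∈ ball (σ i) r, a ∉ ball (σ j) r := by
    intro i j hij a ha hb
    rw [mem_ball, dist_eq_norm] at ha hb
    have := GLA_lt_of (by rw [norm_sub_rev]; exact ha : ‖σ i - a‖ < r) hb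
    exact absurd this (not_lt.2 (hσd i j hij))
  have hballc : ∀ i, ∀ a ∈ ball (σ i) r, ‖a - c‖ ≤ r := by
    intro i a ha
    rw [mem_ball, dist_eq_norm] at ha
    exact GLA_le_of ha.le (hσn i)
  -- comparison with `β i`
  have F2 : ∀ i, (∀ a, a ∉ ball (σ i) r → ‖ev a (p i - α i)‖ ≤ η) ∧
      (∀ a ∈ ball (σ i) r, ‖ev a (q i - α' - ∑ j ∈ Finset.univ.erase i, α j)‖ ≤ η) := by
    intro i
    have hsumreg : ∀ a ∈ ball (σ i) r, reg a (∑ j ∈ Finset.univ.erase i, α j) := by
      intro a ha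
      refine (GLA_reg_sum hEva a _ _ fun j hj => ?_).1
      exact hαr j a (hnot i j (Finset.ne_of_mem_erase hj).symm a ha)
    refine hOpo K (β i - ba) (p i - α i) (q i - α' - ∑ j ∈ Finset.univ.erase i, α j) (σ i) ϖ η
      (Sa ∪ T i) hϖ ?_ (GLA_van_sub (hp i) (hαv i)) ?_ ?_ ?_
    · have h1 : ∑ j, α j = α i + ∑ j ∈ Finset.univ.erase i, α j :=
        (Finset.add_sum_erase _ _ (Finset.mem_univ i)).symm
      rw [hα, h1, hpq i]
      ring
    · intro a ha
      exact GLA_reg_sub hEva (hpr i a ha) (hαr i a ha)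
    · intro a ha
      exact GLA_reg_sub hEva (GLA_reg_sub hEva (hqr i a ha) (hα'r i a ha)) (hsumreg a ha)
    · intro a ha
      have hac : ‖a - c‖ ≤ r := GLA_le_of ha.1 (hσn i)
      have m1 := hba a ⟨hac, fun s hs => ha.2 s (Finset.mem_union_left _ hs)⟩
      have m2 := hβ2 i a ⟨hac, fun s hs => ha.2 s (Finset.mem_union_right _ hs)⟩
      refine ⟨GLA_reg_sub hEva m2.1 m1.1, ?_⟩
      rw [GLA_ev_sub hEva m2.1 m1.1]
      have : ev a (β i) - ev a ba = (H a - ev a ba) - (H a - ev a (β i)) := by ring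
      rw [this]
      exact GLA_norm_sub m1.2 m2.2
  -- comparison with `bg`
  have hαsum : ∀ a, a ∉ closedBall c r → reg a (∑ j, α j) := by
    intro a ha
    refine (GLA_reg_sum hEva a _ _ fun j _ => ?_).1
    apply hαr j a
    intro h
    apply ha
    rw [mem_closedBall, dist_eq_norm]
    exact hballc j a h
  have F3 : (∀ a, a ∉ closedBall c r → ‖ev a (g1 - ∑ j, α j)‖ ≤ η) ∧
      (∀ a ∈ closedBall c r, ‖ev a (g2 - α')‖ ≤ η) := by
    refine hOpc K (bg - ba) (g1 - ∑ j, α j) (g2 - α') c ϖ η (Sa ∪ Sg) hϖ ?_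
      (GLA_van_sub hg1 (GLA_van_sum _ _ fun j _ => hαv j)) ?_ ?_ ?_
    · rw [hg, hα]
      ring
    · intro a ha
      exact GLA_reg_sub hEva (hg1r a ha) (hαsum a ha)
    · intro a ha
      refine GLA_reg_sub hEva (hg2r a ha) (hα'reg a ?_)
      rwa [mem_closedBall, dist_eq_norm] at ha
    · intro a ha
      have m1 := hba a ⟨ha.1, fun s hs => ha.2 s (Finset.mem_union_left _ hs)⟩
      have m2 := hbg' a ⟨ha.1, fun s hs => ha.2 s (Finset.mem_union_right _ hs)⟩
      refine ⟨GLA_reg_sub hEva m2.1 m1.1, ?_⟩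
      rw [GLA_ev_sub hEva m2.1 m1.1]
      have : ev a bg - ev a ba = (H a - ev a ba) - (H a - ev a bg) := by ring
      rw [this]
      exact GLA_norm_sub m1.2 m2.2
  -- the radius `ρ0`
  obtain ⟨ρ0, hρ0, hρ0r, hρi⟩ : ∃ ρ0 : ℝ, 0 < ρ0 ∧ ρ0 < r ∧ ∀ i, ρ i ≤ ρ0 := by
    let M : Finset ℝ := insert (r / 2) (Finset.univ.image ρ)
    have hM : M.Nonempty := Finset.insert_nonempty _ _
    refine ⟨M.max' hM, ?_, ?_, ?_⟩
    · exact lt_of_lt_of_le (half_pos hr) (Finset.le_max' _ _ (Finset.mem_insert_self _ _))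
    · rw [Finset.max'_lt_iff]
      intro y hy
      rcases Finset.mem_insert.1 hy with rfl | hy
      · exact half_lt_self hr
      · obtain ⟨i, _, rfl⟩ := Finset.mem_image.1 hy
        exact hρ i
    · intro i
      exact Finset.le_max' _ _ (Finset.mem_insert_of_mem (Finset.mem_image_of_mem _ (Finset.mem_univ i)))
  refine ⟨R, ρ0, r1, g2 + ∑ i, p i, ?_, hρ0, hρ0r, hr1, ?_⟩
  · intro s hs
    obtain ⟨i, rfl⟩ := hσs s hs
    exact hσ i
  intro a ha
  obtain ⟨ha1, ha2⟩ := ha
  by_cases hac : ‖a - c‖ ≤ r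
  · have hac' : a ∈ closedBall c r := by rwa [mem_closedBall, dist_eq_norm]
    have G2 := F3.2 a hac'
    have rg2 := hg2r a hac'
    have rα' := hα'reg a hac
    rw [GLA_ev_sub hEva rg2 rα'] at G2
    by_cases hi : ∃ i, a ∈ ball (σ i) r
    · -- in a hole, outside of radius `ρ`
      obtain ⟨i, hi⟩ := hi
      have hai : ‖a - σ i‖ < r := by rwa [mem_ball, dist_eq_norm] at hi
      have m := hβ1 i a ⟨(hρi i).trans (ha2 _ (hσR i)), hai⟩
      have rq := hqr i a hi
      have rp : reg a (p i) := by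
        have h1 : p i = β i - q i := by rw [hpq i]; ring
        rw [h1]
        exact GLA_reg_sub hEva m.1 rq
      have rj : ∀ j ∈ Finset.univ.erase i, reg a (p j) := fun j hj =>
        hpr j a (hnot i j (Finset.ne_of_mem_erase hj).symm a hi)
      have rαj : ∀ j ∈ Finset.univ.erase i, reg a (α j) := fun j hj =>
        hαr j a (hnot i j (Finset.ne_of_mem_erase hj).symm a hi)
      have sp := GLA_reg_sum hEva a (Finset.univ.erase i) p rj
      have sα := GLA_reg_sum hEva a (Finset.univ.erase i) α rαj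
      have Q2 := (F2 i).2 a hi
      rw [GLA_ev_sub hEva (GLA_reg_sub hEva rq rα') sα.1, GLA_ev_sub hEva rq rα', sα.2] at Q2
      have hs : ∑ j, p j = p i + ∑ j ∈ Finset.univ.erase i, p j :=
        (Finset.add_sum_erase _ _ (Finset.mem_univ i)).symm
      have rs : reg a (∑ j, p j) := by rw [hs]; exact GLA_reg_add hEva rp sp.1
      refine ⟨GLA_reg_add hEva rg2 rs, ?_⟩
      rw [GLA_ev_add hEva rg2 rs, hs, GLA_ev_add hEva rp sp.1, sp.2]
      have hm := m.2
      rw [hpq i, GLA_ev_add hEva rp rq] at hm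
      have hsum : ‖∑ j ∈ Finset.univ.erase i, (ev a (p j) - ev a (α j))‖ ≤ η := by
        apply IsUltrametricDist.norm_sum_le_of_forall_le_of_nonneg hη.le
        intro j hj
        have h1 := (F2 j).1 a (hnot i j (Finset.ne_of_mem_erase hj).symm a hi)
        rwa [GLA_ev_sub hEva (rj j hj) (rαj j hj)] at h1
      rw [Finset.sum_sub_distrib] at hsum
      have : H a - (ev a g2 + (ev a (p i) + ∑ j ∈ Finset.univ.erase i, ev a (p j))) =
        (H a - (ev a (p i) + ev a (q i))) + ((ev a (q i) - ev a α' -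
          ∑ j ∈ Finset.univ.erase i, ev a (α j)) - (ev a g2 - ev a α')) -
          (∑ j ∈ Finset.univ.erase i, ev a (p j) - ∑ j ∈ Finset.univ.erase i, ev a (α j)) := by
        ring
      rw [this]
      exact GLA_norm_sub (GLA_norm_add hm (GLA_norm_sub Q2 G2)) hsum
    · -- generic points
      push Not at hi
      have m := hba a (hgen a hac hi)
      have rp : ∀ j ∈ (Finset.univ : Finset (Fin n)), reg a (p j) := fun j _ => hpr j a (hi j)
      have rα : ∀ j ∈ (Finset.univ : Finset (Fin n)), reg a (α j) := fun j _ => hαr j a (hi j)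
      have sp := GLA_reg_sum hEva a Finset.univ p rp
      have sα := GLA_reg_sum hEva a Finset.univ α rα
      refine ⟨GLA_reg_add hEva rg2 sp.1, ?_⟩
      rw [GLA_ev_add hEva rg2 sp.1, sp.2]
      have hm := m.2
      rw [hα, GLA_ev_add hEva sα.1 rα', sα.2] at hm
      have hsum : ‖∑ j, (ev a (p j) - ev a (α j))‖ ≤ η := by
        apply IsUltrametricDist.norm_sum_le_of_forall_le_of_nonneg hη.le
        intro j hj
        have h1 := (F2 j).1 a (hi j)
        rwa [GLA_ev_sub hEva (rp j hj) (rα j hj)] at h1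
      rw [Finset.sum_sub_distrib] at hsum
      have : H a - (ev a g2 + ∑ j, ev a (p j)) =
        (H a - (∑ j, ev a (α j) + ev a α')) - (ev a g2 - ev a α') -
          (∑ j, ev a (p j) - ∑ j, ev a (α j)) := by
        ring
      rw [this]
      exact GLA_norm_sub (GLA_norm_sub hm G2) hsum
  · -- outside
    have hac' : a ∉ closedBall c r := by rwa [mem_closedBall, dist_eq_norm]
    have hnb : ∀ j, a ∉ ball (σ j) r := fun j h => hac (hballc j a h)
    have m := hbg a ⟨not_le.1 hac, ha1⟩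
    have rg1 := hg1r a hac'
    have rg2 : reg a g2 := by
      have h1 : g2 = bg - g1 := by rw [hg]; ring
      rw [h1]
      exact GLA_reg_sub hEva m.1 rg1
    have rp : ∀ j ∈ (Finset.univ : Finset (Fin n)), reg a (p j) := fun j _ => hpr j a (hnb j)
    have rα : ∀ j ∈ (Finset.univ : Finset (Fin n)), reg a (α j) := fun j _ => hαr j a (hnb j)
    have sp := GLA_reg_sum hEva a Finset.univ p rp
    have sα := GLA_reg_sum hEva a Finset.univ α rα
    refine ⟨GLA_reg_add hEva rg2 sp.1, ?_⟩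
    rw [GLA_ev_add hEva rg2 sp.1, sp.2]
    have hm := m.2
    rw [hg, GLA_ev_add hEva rg1 rg2] at hm
    have G1 := F3.1 a hac'
    rw [GLA_ev_sub hEva rg1 sα.1, sα.2] at G1
    have hsum : ‖∑ j, (ev a (p j) - ev a (α j))‖ ≤ η := by
      apply IsUltrametricDist.norm_sum_le_of_forall_le_of_nonneg hη.le
      intro j hj
      have h1 := (F2 j).1 a (hnb j)
      rwa [GLA_ev_sub hEva (rp j hj) (rα j hj)] at h1
    rw [Finset.sum_sub_distrib] at hsum
    have : H a - (ev a g2 + ∑ j, ev a (p j)) =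
      (H a - (ev a g1 + ev a g2)) + (ev a g1 - ∑ j, ev a (α j)) -
        (∑ j, ev a (p j) - ∑ j, ev a (α j)) := by
      ring
    rw [this]
    exact GLA_norm_sub (GLA_norm_add hm G1) hsum

end PUC
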