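import Pool.Agent.H34.PUC.GLA
import Pool.Agent.H77.PUC.Util

/-!
# GLB: filling the holes
-/

universe u

namespace PUC

open Polynomial Filter Topology Metric

theorem GLB_min {K : Type u} [NormedField K] (H : K → K) (η ρ r : ℝ) (hρ : ρ < r) (S : Finset K)
    (hS : ∀ s ∈ S, ∃ ρ' : ℝ, ρ < ρ' ∧ PolyApx H η (closedBall s ρ')) :
    ∃ m : ℝ, ρ < m ∧ m ≤ r ∧ ∀ s ∈ S, PolyApx H η (closedBall s m) := by
  classical
  induction S using Finset.induction_on with
  | empty => exact ⟨r, hρ, le_refl _, by simp⟩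
  | insert x S hx ih =>
    obtain ⟨m, h1, h2, h3⟩ := ih fun s hs => hS s (Finset.mem_insert_of_mem hs)
    obtain ⟨ρ', h4, Q, hQ⟩ := hS x (Finset.mem_insert_self _ _)
    refine ⟨min m ρ', lt_min h1 h4, (min_le_left _ _).trans h2, ?_⟩
    intro s hs
    rcases Finset.mem_insert.1 hs with hs | hs
    · subst hs
      exact ⟨Q, fun a ha => hQ a (closedBall_subset_closedBall (min_le_right _ _) ha)⟩
    · obtain ⟨Q', hQ'⟩ := h3 s hs
      exact ⟨Q', fun a ha => hQ' a (closedBall_subset_closedBall (min_le_left _ _) ha)⟩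

theorem sGlb (hPff : SPff.{u}) (hOpo : SOpo.{u}) (hRng : SRng.{u}) (hEva : SEva.{u}) :
    SGlb.{u} := by
  classical
  intro K _ _ _ H η c R ρ S b hη hρ hρR hSc hb hS
  obtain ⟨m, hm1, hm2, hm3⟩ := GLB_min H η ρ R hρR S hS
  obtain ⟨ϖ, hϖ1, hϖ2⟩ := exists_norm_between (K := K) hρ.le hm1
  set r := ‖ϖ‖ with hrdef
  have hr : 0 < r := hρ.trans hϖ1
  have hϖ : ϖ ≠ 0 := norm_pos_iff.1 hr
  have hrR : r ≤ R := hϖ2.le.trans hm2
  have hR : 0 < R := lt_of_lt_of_le hr hrR
  have hSn : ∀ s ∈ S, ‖s - c‖ ≤ R := fun s hs => by simpa [dist_eq_norm] using hSc s hs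
  obtain ⟨Rp, hRS, hRd, hRc⟩ := GLA_rep S r hr
  set n := Rp.card with hn
  let σ : Fin n → K := fun i => (Rp.equivFin.symm i : K)
  have hσR : ∀ i, σ i ∈ Rp := fun i => (Rp.equivFin.symm i).2
  have hσS : ∀ i, σ i ∈ S := fun i => hRS (hσR i)
  have hσd : ∀ i j, i ≠ j → r ≤ ‖σ i - σ j‖ := by
    intro i j hij
    apply hRd _ (hσR i) _ (hσR j)
    intro h
    apply hij
    exact Rp.equivFin.symm.injective (Subtype.ext h)
  have hσc : ∀ t ∈ S, ∃ i, ‖t - σ i‖ < r := by
    intro t ht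
    obtain ⟨s, hs, hts⟩ := hRc t ht
    refine ⟨Rp.equivFin ⟨s, hs⟩, ?_⟩
    simpa [σ] using hts
  have hnot : ∀ i j, i ≠ j → ∀ a ∈ ball (σ i) r, a ∉ ball (σ j) r := by
    intro i j hij a ha hb
    rw [mem_ball, dist_eq_norm] at ha hb
    have := GLA_lt_of (by rw [norm_sub_rev]; exact ha : ‖σ i - a‖ < r) hb
    exact absurd this (not_lt.2 (hσd i j hij))
  obtain ⟨α, α', hα, hαv, hαr, hα'r, hreg⟩ := hPff K b n (fun i => ball (σ i) r) (by
    intro i j hij
    rw [Set.disjoint_left]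
    exact hnot i j hij)
  choose Q hQ using fun i => hm3 (σ i) (hσS i)
  have hballc : ∀ i, ∀ a, ‖a - σ i‖ ≤ r → ‖a - c‖ ≤ R := by
    intro i a ha
    exact GLA_le_of (ha.trans hrR) (hSn _ (hσS i))
  -- outside of the holes `b` is good
  have hgood : ∀ a, ‖a - c‖ ≤ R → (∀ i, a ∉ ball (σ i) r) → reg a b ∧ ‖H a - ev a b‖ ≤ η := by
    intro a ha hi
    refine hb a ⟨ha, fun t ht => ?_⟩
    by_contra hlt
    rw [not_le] at hlt
    obtain ⟨i, hi'⟩ := hσc t ht
    apply hi i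
    rw [mem_ball, dist_eq_norm]
    exact GLA_lt_of (hlt.trans hϖ1) hi'
  have hα'reg : ∀ a, ‖a - c‖ ≤ R → reg a α' := by
    intro a ha
    by_cases hi : ∃ i, a ∈ ball (σ i) r
    · obtain ⟨i, hi⟩ := hi
      exact hα'r i a hi
    · push Not at hi
      exact (hreg a (hgood a ha hi).1).2
  have hpoly : ∀ (a : K) (P : K[X]), reg a (algebraMap K[X] (RatFunc K) P) ∧
      ev a (algebraMap K[X] (RatFunc K) P) = P.eval a := fun a P => (hEva K a 0 0).2.2 P
  have F2 : ∀ i, (∀ a, a ∉ ball (σ i) r → ‖ev a (α i)‖ ≤ η) ∧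
      (∀ a ∈ ball (σ i) r, ‖ev a (α' + ∑ j ∈ Finset.univ.erase i, α j -
        algebraMap K[X] (RatFunc K) (Q i))‖ ≤ η) := by
    intro i
    have hsumreg : ∀ a ∈ ball (σ i) r, reg a (∑ j ∈ Finset.univ.erase i, α j) := by
      intro a ha
      refine (GLA_reg_sum hEva a _ _ fun j hj => ?_).1
      exact hαr j a (hnot i j (Finset.ne_of_mem_erase hj).symm a ha)
    refine hOpo K (b - algebraMap K[X] (RatFunc K) (Q i)) (α i)
      (α' + ∑ j ∈ Finset.univ.erase i, α j - algebraMap K[X] (RatFunc K) (Q i)) (σ i) ϖ η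
      S hϖ ?_ (hαv i) (hαr i) ?_ ?_
    · have h1 : ∑ j, α j = α i + ∑ j ∈ Finset.univ.erase i, α j :=
        (Finset.add_sum_erase _ _ (Finset.mem_univ i)).symm
      rw [hα, h1]
      ring
    · intro a ha
      exact GLA_reg_sub hEva (GLA_reg_add hEva (hα'r i a ha) (hsumreg a ha)) (hpoly a _).1
    · intro a ha
      have m1 := hb a ⟨hballc i a ha.1, fun s hs => hϖ1.le.trans (ha.2 s hs)⟩
      have m2 := hQ i a (by rw [mem_closedBall, dist_eq_norm]; exact ha.1.trans hϖ2.le)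
      refine ⟨GLA_reg_sub hEva m1.1 (hpoly a _).1, ?_⟩
      rw [GLA_ev_sub hEva m1.1 (hpoly a _).1, (hpoly a _).2]
      have : ev a b - (Q i).eval a = (H a - (Q i).eval a) - (H a - ev a b) := by ring
      rw [this]
      exact GLA_norm_sub m2 m1.2
  -- `H` is close to `α'` on the disc
  have F4 : ∀ a, ‖a - c‖ ≤ R → ‖H a - ev a α'‖ ≤ η := by
    intro a ha
    have rα' := hα'reg a ha
    by_cases hi : ∃ i, a ∈ ball (σ i) r
    · obtain ⟨i, hi⟩ := hi
      have hai : ‖a - σ i‖ < r := by rwa [mem_ball, dist_eq_norm] at hi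
      have m2 := hQ i a (by rw [mem_closedBall, dist_eq_norm]; exact hai.le.trans hϖ2.le)
      have rαj : ∀ j ∈ Finset.univ.erase i, reg a (α j) := fun j hj =>
        hαr j a (hnot i j (Finset.ne_of_mem_erase hj).symm a hi)
      have sα := GLA_reg_sum hEva a (Finset.univ.erase i) α rαj
      have Q2 := (F2 i).2 a hi
      rw [GLA_ev_sub hEva (GLA_reg_add hEva rα' sα.1) (hpoly a _).1,
        GLA_ev_add hEva rα' sα.1, sα.2, (hpoly a _).2] at Q2
      have hsum : ‖∑ j ∈ Finset.univ.erase i, ev a (α j)‖ ≤ η := by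
        apply IsUltrametricDist.norm_sum_le_of_forall_le_of_nonneg hη.le
        intro j hj
        exact (F2 j).1 a (hnot i j (Finset.ne_of_mem_erase hj).symm a hi)
      have : H a - ev a α' = (H a - (Q i).eval a) -
        (ev a α' + ∑ j ∈ Finset.univ.erase i, ev a (α j) - (Q i).eval a) +
          ∑ j ∈ Finset.univ.erase i, ev a (α j) := by ring
      rw [this]
      exact GLA_norm_add (GLA_norm_sub m2 Q2) hsum
    · push Not at hi
      have mg := hgood a ha hi
      have rα : ∀ j ∈ (Finset.univ : Finset (Fin n)), reg a (α j) := fun j _ => hαr j a (hi j)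
      have sα := GLA_reg_sum hEva a Finset.univ α rα
      have hm := mg.2
      rw [hα, GLA_ev_add hEva sα.1 rα', sα.2] at hm
      have hsum : ‖∑ j, ev a (α j)‖ ≤ η := by
        apply IsUltrametricDist.norm_sum_le_of_forall_le_of_nonneg hη.le
        intro j _
        exact (F2 j).1 a (hi j)
      have : H a - ev a α' = (H a - (∑ j, ev a (α j) + ev a α')) + ∑ j, ev a (α j) := by ring
      rw [this]
      exact GLA_norm_add hm hsum
  obtain ⟨P, hP⟩ := hRng K α' c R η hR hη (fun a ha => hα'reg a (by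
    rwa [mem_closedBall, dist_eq_norm] at ha))
  refine ⟨P, fun a ha => ?_⟩
  have h1 := hP a ha
  have h2 := F4 a (by rwa [mem_closedBall, dist_eq_norm] at ha)
  have : H a - P.eval a = (H a - ev a α') + (ev a α' - P.eval a) := by ring
  rw [this]
  exact GLA_norm_add h2 h1

end PUC
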