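import Pool.Agent.H77.PUC.StmtsE

/-!
# PZA: two close points in the affine chart
-/

universe u

namespace PUC

open Finset

theorem PZA_hh_mul {K : Type u} [Field K] (k : ℕ) (a b : K) :
    (a - b) * hh k a b = a ^ (k + 1) - b ^ (k + 1) := by
  unfold hh
  have h := (Commute.all a b).mul_geom_sum₂ (k + 1)
  simpa using h

theorem PZA_hh_self {K : Type u} [Field K] (k : ℕ) (b : K) :
    hh k b b = (k + 1 : K) * b ^ k := by
  unfold hh
  rw [Finset.sum_congr rfl (g := fun _ => b ^ k)]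
  · rw [Finset.sum_const, Finset.card_range, nsmul_eq_mul]
    push_cast
    ring
  · intro i hi
    rw [← pow_add]
    congr 1
    have := Finset.mem_range.1 hi
    omega

theorem PZA_norm_pow_sub {K : Type u} [NormedField K] [IsUltrametricDist K] {a b : K}
    (ha : ‖a‖ ≤ 1) (hb : ‖b‖ ≤ 1) (hab : ‖a - b‖ < 1) (n : ℕ) : ‖a ^ n - b ^ n‖ < 1 := by
  rcases n with _ | n
  · simp
  · rw [← PZA_hh_mul, norm_mul]
    have h1 : ‖hh n a b‖ ≤ 1 := by
      unfold hh
      apply IsUltrametricDist.norm_sum_le_of_forall_le_of_nonneg zero_le_one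
      intro i _
      rw [norm_mul, norm_pow, norm_pow]
      exact mul_le_one₀ (pow_le_one₀ (norm_nonneg _) ha) (by positivity)
        (pow_le_one₀ (norm_nonneg _) hb)
    calc ‖a - b‖ * ‖hh n a b‖ ≤ ‖a - b‖ * 1 := by gcongr
      _ < 1 := by rwa [mul_one]

theorem PZA_hh_norm {K : Type u} [NormedField K] [IsUltrametricDist K] {a b : K}
    (ha : ‖a‖ ≤ 1) (hb : ‖b‖ ≤ 1) (n : ℕ) : ‖hh n a b‖ ≤ 1 := by
  unfold hh
  apply IsUltrametricDist.norm_sum_le_of_forall_le_of_nonneg zero_le_one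
  intro i _
  rw [norm_mul, norm_pow, norm_pow]
  exact mul_le_one₀ (pow_le_one₀ (norm_nonneg _) ha) (by positivity)
    (pow_le_one₀ (norm_nonneg _) hb)

theorem PZA_norm_sum_lt {K : Type u} [NormedField K] [IsUltrametricDist K] {ι : Type*}
    (s : Finset ι) (f : ι → K) (h : ∀ i ∈ s, ‖f i‖ < 1) : ‖∑ i ∈ s, f i‖ < 1 := by
  classical
  induction s using Finset.induction_on with
  | empty => simp
  | insert a s ha ih =>
    rw [Finset.sum_insert ha]
    refine lt_of_le_of_lt (IsUltrametricDist.norm_add_le_max _ _) (max_lt ?_ ?_)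
    · exact h a (Finset.mem_insert_self _ _)
    · exact ih fun i hi => h i (Finset.mem_insert_of_mem hi)

theorem PZA_hh_sub {K : Type u} [NormedField K] [IsUltrametricDist K] {a b : K}
    (ha : ‖a‖ ≤ 1) (hb : ‖b‖ ≤ 1) (hab : ‖a - b‖ < 1) (n : ℕ) :
    ‖hh n a b - (n + 1 : K) * b ^ n‖ < 1 := by
  rw [← PZA_hh_self]
  unfold hh
  rw [← Finset.sum_sub_distrib]
  apply PZA_norm_sum_lt
  intro i _
  rw [← sub_mul, norm_mul]
  calc ‖a ^ i - b ^ i‖ * ‖b ^ (n - i)‖ ≤ ‖a ^ i - b ^ i‖ * 1 := by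
        gcongr
        rw [norm_pow]
        exact pow_le_one₀ (norm_nonneg _) hb
    _ < 1 := by rw [mul_one]; exact PZA_norm_pow_sub ha hb hab i

theorem PZA_norm_eq_one {K : Type u} [NormedField K] [IsUltrametricDist K] {a b : K}
    (ha : ‖a‖ = 1) (hab : ‖b - a‖ < 1) : ‖b‖ = 1 := by
  have h : ‖a‖ ≠ ‖b - a‖ := by
    rw [ha]; exact ne_of_gt hab
  have h2 := IsUltrametricDist.norm_add_eq_max_of_norm_ne_norm h
  rw [add_sub_cancel] at h2
  rw [h2, ha, max_eq_left hab.le]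

theorem sPza : SPza.{u} := by
  intro K _ _ g s x1 y1 x2 y2 hs hsm hx1 hy1 hx2 hy2 e1 e2 hx hy
  have key : (x1 - x2) * (hh (2 * g) x1 x2 + s) = (y1 - y2) * (y1 + y2 + 1) := by
    have h := PZA_hh_mul (2 * g) x1 x2
    rw [mul_add, h]
    linear_combination e2 - e1
  have hY : ‖y1 + y2 + 1‖ ≤ 1 := by
    refine (IsUltrametricDist.norm_add_le_max _ _).trans (max_le ?_ (by simp))
    exact (IsUltrametricDist.norm_add_le_max _ _).trans (max_le hy1 hy2)
  have hf : ‖hh (2 * g) x1 x2 + s‖ ≤ 1 :=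
    (IsUltrametricDist.norm_add_le_max _ _).trans (max_le (PZA_hh_norm hx1 hx2 _) hs)
  have hor : ‖y1 + y2 + 1‖ = 1 ∨ ‖hh (2 * g) x1 x2 + s‖ = 1 := by
    rcases hsm x2 y2 hx2 hy2 e2 with h | h
    · left
      apply PZA_norm_eq_one h
      have : y1 + y2 + 1 - (2 * y2 + 1) = y1 - y2 := by ring
      rwa [this]
    · right
      apply PZA_norm_eq_one h
      have h2 := PZA_hh_sub hx1 hx2 hx (2 * g)
      have : hh (2 * g) x1 x2 + s - ((2 * g + 1 : K) * x2 ^ (2 * g) + s) =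
        hh (2 * g) x1 x2 - (((2 * g : ℕ) : K) + 1) * x2 ^ (2 * g) := by
        push_cast; ring
      rwa [this]
  by_cases h1 : ‖y1 + y2 + 1‖ = 1
  · have hd : dl0 g s x1 y1 x2 y2 = (x1 - x2) / (y1 + y2 + 1) := by
      unfold dl0; rw [if_pos h1]
    have hne : y1 + y2 + 1 ≠ 0 := by
      intro h0; rw [h0, norm_zero] at h1; exact zero_ne_one h1
    have a1 : x1 - x2 = (y1 + y2 + 1) * dl0 g s x1 y1 x2 y2 := by
      rw [hd]; field_simp
    have a2 : y1 - y2 = (hh (2 * g) x1 x2 + s) * dl0 g s x1 y1 x2 y2 := by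
      rw [hd]; field_simp; linear_combination - key
    refine ⟨a1, a2, ?_, hY, hf, hor⟩
    have b1 : ‖x1 - x2‖ = ‖dl0 g s x1 y1 x2 y2‖ := by
      conv_lhs => rw [a1]
      rw [norm_mul, h1, one_mul]
    have b2 : ‖y1 - y2‖ ≤ ‖dl0 g s x1 y1 x2 y2‖ := by
      conv_lhs => rw [a2]
      rw [norm_mul]
      exact mul_le_of_le_one_left (norm_nonneg _) hf
    rw [b1, max_eq_left b2]
  · have h2 := hor.resolve_left h1
    have hd : dl0 g s x1 y1 x2 y2 = (y1 - y2) / (hh (2 * g) x1 x2 + s) := by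
      unfold dl0; rw [if_neg h1]
    have hne : hh (2 * g) x1 x2 + s ≠ 0 := by
      intro h0; rw [h0, norm_zero] at h2; exact zero_ne_one h2
    have a2 : y1 - y2 = (hh (2 * g) x1 x2 + s) * dl0 g s x1 y1 x2 y2 := by
      rw [hd]; field_simp
    have a1 : x1 - x2 = (y1 + y2 + 1) * dl0 g s x1 y1 x2 y2 := by
      rw [hd]; field_simp; linear_combination key
    refine ⟨a1, a2, ?_, hY, hf, hor⟩
    have b1 : ‖y1 - y2‖ = ‖dl0 g s x1 y1 x2 y2‖ := by
      conv_lhs => rw [a2]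
      rw [norm_mul, h2, one_mul]
    have b2 : ‖x1 - x2‖ ≤ ‖dl0 g s x1 y1 x2 y2‖ := by
      conv_lhs => rw [a1]
      rw [norm_mul]
      exact mul_le_of_le_one_left (norm_nonneg _) hY
    rw [b1, max_eq_right b2]

end PUC
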