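import Pool.Agent.H34.PUC.PZI

/-!
# PZC: comparison of the two charts on `|x| = 1`
-/

universe u

namespace PUC

open Finset

/-- congruence modulo `{‖·‖ ≤ d}` in the unit ball -/
def PZC_C {K : Type u} [NormedField K] (d : ℝ) (a b : K) : Prop :=
  ‖a‖ ≤ 1 ∧ ‖b‖ ≤ 1 ∧ ‖a - b‖ ≤ d

section
variable {K : Type u} [NormedField K] [IsUltrametricDist K] {d : ℝ} {a b a' b' : K}

theorem PZC_refl (hd : 0 ≤ d) (ha : ‖a‖ ≤ 1) : PZC_C d a a := ⟨ha, ha, by simpa using hd⟩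

theorem PZC_add (h : PZC_C d a b) (h' : PZC_C d a' b') : PZC_C d (a + a') (b + b') := by
  refine ⟨(IsUltrametricDist.norm_add_le_max _ _).trans (max_le h.1 h'.1),
    (IsUltrametricDist.norm_add_le_max _ _).trans (max_le h.2.1 h'.2.1), ?_⟩
  have : a + a' - (b + b') = (a - b) + (a' - b') := by ring
  rw [this]
  exact (IsUltrametricDist.norm_add_le_max _ _).trans (max_le h.2.2 h'.2.2)

theorem PZC_neg (h : PZC_C d a b) : PZC_C d (-a) (-b) := by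
  refine ⟨by rw [norm_neg]; exact h.1, by rw [norm_neg]; exact h.2.1, ?_⟩
  have : -a - -b = -(a - b) := by ring
  rw [this, norm_neg]
  exact h.2.2

theorem PZC_sub (h : PZC_C d a b) (h' : PZC_C d a' b') : PZC_C d (a - a') (b - b') := by
  rw [sub_eq_add_neg, sub_eq_add_neg]
  exact PZC_add h (PZC_neg h')

theorem PZC_mul (h : PZC_C d a b) (h' : PZC_C d a' b') : PZC_C d (a * a') (b * b') := by
  refine ⟨by rw [norm_mul]; exact mul_le_one₀ h.1 (norm_nonneg _) h'.1,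
    by rw [norm_mul]; exact mul_le_one₀ h.2.1 (norm_nonneg _) h'.2.1, ?_⟩
  have : a * a' - b * b' = (a - b) * a' + b * (a' - b') := by ring
  rw [this]
  refine (IsUltrametricDist.norm_add_le_max _ _).trans (max_le ?_ ?_)
  · rw [norm_mul]
    exact (mul_le_of_le_one_right (norm_nonneg _) h'.1).trans h.2.2
  · rw [norm_mul]
    exact (mul_le_of_le_one_left (norm_nonneg _) h.2.1).trans h'.2.2

theorem PZC_pow (hd : 0 ≤ d) (h : PZC_C d a b) (n : ℕ) : PZC_C d (a ^ n) (b ^ n) := by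
  induction n with
  | zero => simpa using PZC_refl (a := (1 : K)) hd (by simp)
  | succ n ih => rw [pow_succ, pow_succ]; exact PZC_mul ih h

theorem PZC_sum (hd : 0 ≤ d) {ι : Type*} (s : Finset ι) (f f' : ι → K)
    (h : ∀ i ∈ s, PZC_C d (f i) (f' i)) : PZC_C d (∑ i ∈ s, f i) (∑ i ∈ s, f' i) := by
  classical
  induction s using Finset.induction_on with
  | empty => simpa using PZC_refl (a := (0 : K)) hd (by simp)
  | insert a s ha ih =>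
    rw [Finset.sum_insert ha, Finset.sum_insert ha]
    exact PZC_add (h a (Finset.mem_insert_self _ _))
      (ih fun i hi => h i (Finset.mem_insert_of_mem hi))

theorem PZC_hh (hd : 0 ≤ d) (h : PZC_C d a b) (hb : ‖b‖ ≤ 1) (n : ℕ) :
    PZC_C d (hh n a b) ((n + 1 : K) * b ^ n) := by
  rw [← PZA_hh_self]
  unfold hh
  apply PZC_sum hd
  intro i _
  exact PZC_mul (PZC_pow hd h i) (PZC_pow hd (PZC_refl hd hb) _)

end

theorem sPzc : SPzc.{u} := by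
  intro K _ _ g s x1 y1 x2 y2 hg hs hsm hsi hx1 hy1 hx2 hy2 e1 e2 hx hy
  obtain ⟨n, rfl⟩ : ∃ n, g = n + 1 := ⟨g - 1, by omega⟩
  have hx1' : x1 ≠ 0 := by rintro rfl; simp at hx1
  have hx2' : x2 ≠ 0 := by rintro rfl; simp at hx2
  set d := max ‖x1 - x2‖ ‖y1 - y2‖ with hd
  have hd0 : 0 ≤ d := le_max_of_le_left (norm_nonneg _)
  have hd1 : d < 1 := max_lt hx hy
  have hu1 : ‖x1⁻¹‖ = 1 := by rw [norm_inv, hx1, inv_one]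
  have hu2 : ‖x2⁻¹‖ = 1 := by rw [norm_inv, hx2, inv_one]
  have eu : x1⁻¹ - x2⁻¹ = -(x1 - x2) * (x1⁻¹ * x2⁻¹) := by field_simp; ring
  have nu : ‖x1⁻¹ - x2⁻¹‖ = ‖x1 - x2‖ := by
    rw [eu, norm_mul, norm_mul, hu1, hu2, norm_neg, mul_one, mul_one]
  have cx : PZC_C d x1 x2 := ⟨hx1.le, hx2.le, le_max_left _ _⟩
  have cy : PZC_C d y1 y2 := ⟨hy1, hy2, le_max_right _ _⟩
  have cu : PZC_C d x1⁻¹ x2⁻¹ := ⟨hu1.le, hu2.le, by rw [nu]; exact le_max_left _ _⟩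
  have cy2 : PZC_C d y2 y2 := PZC_refl hd0 hy2
  have cu2 : PZC_C d x2⁻¹ x2⁻¹ := PZC_refl hd0 hu2.le
  have cs : PZC_C d s s := PZC_refl hd0 hs
  have c1 : PZC_C d (1 : K) 1 := PZC_refl hd0 (by simp)
  have ew1 : y1 / x1 ^ (n + 1 + 1) = y1 * x1⁻¹ ^ (n + 1 + 1) := by
    rw [div_eq_mul_inv, inv_pow]
  have ew2 : y2 / x2 ^ (n + 1 + 1) = y2 * x2⁻¹ ^ (n + 1 + 1) := by
    rw [div_eq_mul_inv, inv_pow]
  have cw : PZC_C d (y1 / x1 ^ (n + 1 + 1)) (y2 / x2 ^ (n + 1 + 1)) := by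
    rw [ew1, ew2]
    exact PZC_mul cy (PZC_pow hd0 cu _)
  have cw2 : PZC_C d (y2 / x2 ^ (n + 1 + 1)) (y2 / x2 ^ (n + 1 + 1)) := PZC_refl hd0 cw.2.1
  have hmax : max ‖x1⁻¹ - x2⁻¹‖ ‖y1 / x1 ^ (n + 1 + 1) - y2 / x2 ^ (n + 1 + 1)‖ = d := by
    apply le_antisymm
    · exact max_le cu.2.2 cw.2.2
    · rw [hd, nu]
      apply max_le (le_max_left _ _)
      have : y1 - y2 = x1 ^ (n + 1 + 1) * (y1 / x1 ^ (n + 1 + 1) - y2 / x2 ^ (n + 1 + 1)) +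
          (y2 / x2 ^ (n + 1 + 1)) * (x1 ^ (n + 1 + 1) - x2 ^ (n + 1 + 1)) := by
        field_simp; ring
      rw [this]
      refine (IsUltrametricDist.norm_add_le_max _ _).trans (max_le ?_ ?_)
      · rw [norm_mul, norm_pow, hx1, one_pow, one_mul]
        exact le_max_right _ _
      · rw [norm_mul]
        refine le_max_of_le_left ?_
        refine (mul_le_of_le_one_left (norm_nonneg _) cw.2.1).trans ?_
        have h3 := (PZC_pow (norm_nonneg _) (⟨hx1.le, hx2.le, le_refl _⟩ : PZC_C ‖x1 - x2‖ x1 x2)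
          (n + 1 + 1)).2.2
        exact h3
  refine ⟨hmax, ?_⟩
  have q1 : (y1 / x1 ^ (n + 1 + 1)) ^ 2 + x1⁻¹ ^ (n + 1 + 1) * (y1 / x1 ^ (n + 1 + 1)) =
      x1⁻¹ + s * x1⁻¹ ^ (2 * (n + 1) + 1) := by
    have h1 : x1 * x1⁻¹ = 1 := mul_inv_cancel₀ hx1'
    have h2 : x1 ^ (2 * (n + 1) + 1) * x1⁻¹ ^ (2 * (n + 1) + 1) = 1 := by
      rw [← mul_pow, h1, one_pow]
    rw [ew1]
    have : (y1 * x1⁻¹ ^ (n + 1 + 1)) ^ 2 + x1⁻¹ ^ (n + 1 + 1) * (y1 * x1⁻¹ ^ (n + 1 + 1)) =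
      (y1 ^ 2 + y1) * (x1⁻¹ ^ (2 * (n + 1) + 1) * x1⁻¹) := by ring
    rw [this, e1]
    linear_combination x1⁻¹ * h2 + s * x1⁻¹ ^ (2 * (n + 1) + 1) * h1
  have q2 : (y2 / x2 ^ (n + 1 + 1)) ^ 2 + x2⁻¹ ^ (n + 1 + 1) * (y2 / x2 ^ (n + 1 + 1)) =
      x2⁻¹ + s * x2⁻¹ ^ (2 * (n + 1) + 1) := by
    have h1 : x2 * x2⁻¹ = 1 := mul_inv_cancel₀ hx2'
    have h2 : x2 ^ (2 * (n + 1) + 1) * x2⁻¹ ^ (2 * (n + 1) + 1) = 1 := by
      rw [← mul_pow, h1, one_pow]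
    rw [ew2]
    have : (y2 * x2⁻¹ ^ (n + 1 + 1)) ^ 2 + x2⁻¹ ^ (n + 1 + 1) * (y2 * x2⁻¹ ^ (n + 1 + 1)) =
      (y2 ^ 2 + y2) * (x2⁻¹ ^ (2 * (n + 1) + 1) * x2⁻¹) := by ring
    rw [this, e2]
    linear_combination x2⁻¹ * h2 + s * x2⁻¹ ^ (2 * (n + 1) + 1) * h1
  obtain ⟨p1, p2, p3, p4, p5, p6⟩ := sPza K (n + 1) s x1 y1 x2 y2 hs hsm hx1.le hy1 hx2.le hy2
    e1 e2 hx hy
  obtain ⟨r1, r2, r3, r4, r5, r6⟩ := sPzi K (n + 1) s x1⁻¹ (y1 / x1 ^ (n + 1 + 1)) x2⁻¹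
    (y2 / x2 ^ (n + 1 + 1)) hg hs hsi hu1.le cw.1 hu2.le cw.2.1 q1 q2
    (lt_of_le_of_lt cu.2.2 hd1) (lt_of_le_of_lt cw.2.2 hd1)
  set δ0 := dl0 (n + 1) s x1 y1 x2 y2 with hδ0
  set δi := dli (n + 1) s x1⁻¹ (y1 / x1 ^ (n + 1 + 1)) x2⁻¹ (y2 / x2 ^ (n + 1 + 1)) with hδi
  set W := y1 / x1 ^ (n + 1 + 1) + y2 / x2 ^ (n + 1 + 1) + x1⁻¹ ^ (n + 1 + 1) with hW
  set Fi := 1 + s * hh (2 * (n + 1)) x1⁻¹ x2⁻¹ - y2 / x2 ^ (n + 1 + 1) * hh (n + 1) x1⁻¹ x2⁻¹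
    with hFi
  have hn1 : n + 1 - 1 = n := by omega
  rw [hn1]
  -- the first identity
  have t1 : W * (δi + x1 ^ n * δ0) =
      δ0 * (-((y1 + y2 + 1) * (x1⁻¹ * x2⁻¹)) + W * x1 ^ n) := by
    rw [eu] at r1
    linear_combination (-1 : K) * r1 - x1⁻¹ * x2⁻¹ * p1
  have cA : ‖-((y1 + y2 + 1) * (x1⁻¹ * x2⁻¹)) + W * x1 ^ n‖ ≤ d := by
    have h := PZC_add (PZC_neg (PZC_mul (PZC_add (PZC_add cy cy2) c1) (PZC_mul cu cu2)))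
      (PZC_mul (PZC_add (PZC_add cw cw2) (PZC_pow hd0 cu (n + 1 + 1))) (PZC_pow hd0 cx n))
    have h2 := h.2.2
    have z : -((y2 + y2 + 1) * (x2⁻¹ * x2⁻¹)) +
        (y2 / x2 ^ (n + 1 + 1) + y2 / x2 ^ (n + 1 + 1) + x2⁻¹ ^ (n + 1 + 1)) * x2 ^ n = 0 := by
      have h1 : x2 ^ n * x2⁻¹ ^ n = 1 := by
        rw [← mul_pow, mul_inv_cancel₀ hx2', one_pow]
      rw [ew2]
      linear_combination (2 * y2 + 1) * x2⁻¹ ^ 2 * h1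
    rw [z, sub_zero] at h2
    exact h2
  -- the second identity
  have e3 : y1 / x1 ^ (n + 1 + 1) - y2 / x2 ^ (n + 1 + 1) =
      (y1 - y2) * x1⁻¹ ^ (n + 1 + 1) + y2 * ((x1⁻¹ - x2⁻¹) * hh (n + 1) x1⁻¹ x2⁻¹) := by
    rw [PZA_hh_mul, ew1, ew2]
    ring
  have t2 : Fi * (δi + x1 ^ n * δ0) =
      δ0 * ((hh (2 * (n + 1)) x1 x2 + s) * x1⁻¹ ^ (n + 1 + 1) -
        y2 * ((y1 + y2 + 1) * (x1⁻¹ * x2⁻¹) * hh (n + 1) x1⁻¹ x2⁻¹) + Fi * x1 ^ n) := by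
    rw [e3, eu] at r2
    linear_combination (-1 : K) * r2 + x1⁻¹ ^ (n + 1 + 1) * p2 -
      y2 * x1⁻¹ * x2⁻¹ * hh (n + 1) x1⁻¹ x2⁻¹ * p1
  have cE : ‖(hh (2 * (n + 1)) x1 x2 + s) * x1⁻¹ ^ (n + 1 + 1) -
        y2 * ((y1 + y2 + 1) * (x1⁻¹ * x2⁻¹) * hh (n + 1) x1⁻¹ x2⁻¹) + Fi * x1 ^ n‖ ≤ d := by
    have h := PZC_add (PZC_sub (PZC_mul (PZC_add (PZC_hh hd0 cx hx2.le (2 * (n + 1))) cs)
        (PZC_pow hd0 cu (n + 1 + 1)))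
      (PZC_mul cy2 (PZC_mul (PZC_mul (PZC_add (PZC_add cy cy2) c1) (PZC_mul cu cu2))
        (PZC_hh hd0 cu hu2.le (n + 1)))))
      (PZC_mul (PZC_sub (PZC_add c1 (PZC_mul cs (PZC_hh hd0 cu hu2.le (2 * (n + 1)))))
        (PZC_mul cw2 (PZC_hh hd0 cu hu2.le (n + 1)))) (PZC_pow hd0 cx n))
    have h2 := h.2.2
    have z : ((((2 * (n + 1) : ℕ) : K) + 1) * x2 ^ (2 * (n + 1)) + s) * x2⁻¹ ^ (n + 1 + 1) -
        y2 * ((y2 + y2 + 1) * (x2⁻¹ * x2⁻¹) * ((((n + 1 : ℕ) : K) + 1) * x2⁻¹ ^ (n + 1))) +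
        (1 + s * ((((2 * (n + 1) : ℕ) : K) + 1) * x2⁻¹ ^ (2 * (n + 1))) -
          y2 / x2 ^ (n + 1 + 1) * ((((n + 1 : ℕ) : K) + 1) * x2⁻¹ ^ (n + 1))) * x2 ^ n = 0 := by
      have h0 : x2 * x2⁻¹ = 1 := mul_inv_cancel₀ hx2'
      have hp : ∀ k : ℕ, x2 ^ k * x2⁻¹ ^ k = 1 := fun k => by rw [← mul_pow, h0, one_pow]
      rw [ew2]
      push_cast
      have k1 : x2 ^ (2 * (n + 1)) * x2⁻¹ ^ (n + 1 + 1) = x2 ^ n := by
        linear_combination x2 ^ n * hp (n + 1 + 1)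
      have k2 : x2⁻¹ ^ (2 * (n + 1)) * x2 ^ n = x2⁻¹ ^ (n + 2) := by
        linear_combination x2⁻¹ ^ (n + 2) * hp n
      have k3 : x2⁻¹ ^ (n + 1 + 1) * x2⁻¹ ^ (n + 1) * x2 ^ n = x2⁻¹ ^ (n + 3) := by
        linear_combination x2⁻¹ ^ (n + 3) * hp n
      have k4 : x2 ^ (2 * (n + 1) + 1) * x2⁻¹ ^ (n + 3) = x2 ^ n := by
        linear_combination x2 ^ n * hp (n + 3)
      have k5 : x2 * x2⁻¹ ^ (n + 3) = x2⁻¹ ^ (n + 2) := by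
        linear_combination x2⁻¹ ^ (n + 2) * h0
      linear_combination (2 * (n : K) + 3) * k1 + s * (2 * (n : K) + 3) * k2 -
        ((n : K) + 2) * y2 * k3 - 2 * ((n : K) + 2) * x2⁻¹ ^ (n + 3) * e2 -
        2 * ((n : K) + 2) * k4 - 2 * ((n : K) + 2) * s * k5
    rw [z, sub_zero] at h2
    exact h2
  have hδ0n : ‖δ0‖ = d := p3
  rw [sq]
  rcases r6 with h | h
  · have := congrArg norm t1
    rw [norm_mul, norm_mul, h, one_mul, hδ0n] at this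
    rw [this]
    gcongr
  · have := congrArg norm t2
    rw [norm_mul, norm_mul, h, one_mul, hδ0n] at this
    rw [this]
    gcongr

end PUC
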