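import Pool.Agent.H34.PUC.PZA

/-!
# PZI: two close points in the chart at infinity
-/

universe u

namespace PUC

open Finset

theorem sPzi : SPzi.{u} := by
  intro K _ _ g s u1 w1 u2 w2 hg hs hsm hu1 hw1 hu2 hw2 e1 e2 hu hw
  have key : (u1 - u2) * (1 + s * hh (2 * g) u1 u2 - w2 * hh g u1 u2) =
      (w1 - w2) * (w1 + w2 + u1 ^ (g + 1)) := by
    have h := PZA_hh_mul (2 * g) u1 u2
    have h' := PZA_hh_mul g u1 u2
    linear_combination s * h - w2 * h' + e2 - e1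
  have hY : ‖w1 + w2 + u1 ^ (g + 1)‖ ≤ 1 := by
    refine (IsUltrametricDist.norm_add_le_max _ _).trans (max_le ?_ ?_)
    · exact (IsUltrametricDist.norm_add_le_max _ _).trans (max_le hw1 hw2)
    · rw [norm_pow]; exact pow_le_one₀ (norm_nonneg _) hu1
  have hf : ‖1 + s * hh (2 * g) u1 u2 - w2 * hh g u1 u2‖ ≤ 1 := by
    rw [sub_eq_add_neg]
    refine (IsUltrametricDist.norm_add_le_max _ _).trans (max_le ?_ ?_)
    · refine (IsUltrametricDist.norm_add_le_max _ _).trans (max_le (by simp) ?_)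
      rw [norm_mul]
      exact mul_le_one₀ hs (norm_nonneg _) (PZA_hh_norm hu1 hu2 _)
    · rw [norm_neg, norm_mul]
      exact mul_le_one₀ hw2 (norm_nonneg _) (PZA_hh_norm hu1 hu2 _)
  have hor : ‖w1 + w2 + u1 ^ (g + 1)‖ = 1 ∨
      ‖1 + s * hh (2 * g) u1 u2 - w2 * hh g u1 u2‖ = 1 := by
    rcases hsm u2 w2 hu2 hw2 e2 with h | h
    · left
      apply PZA_norm_eq_one h
      have : w1 + w2 + u1 ^ (g + 1) - (2 * w2 + u2 ^ (g + 1)) =
        (w1 - w2) + (u1 ^ (g + 1) - u2 ^ (g + 1)) := by ring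
      rw [this]
      exact lt_of_le_of_lt (IsUltrametricDist.norm_add_le_max _ _)
        (max_lt hw (PZA_norm_pow_sub hu1 hu2 hu _))
    · right
      apply PZA_norm_eq_one h
      have h2 := PZA_hh_sub hu1 hu2 hu (2 * g)
      have h3 := PZA_hh_sub hu1 hu2 hu g
      have : 1 + s * hh (2 * g) u1 u2 - w2 * hh g u1 u2 -
          (1 + (2 * g + 1 : K) * s * u2 ^ (2 * g) - (g + 1 : K) * u2 ^ g * w2) =
        s * (hh (2 * g) u1 u2 - (((2 * g : ℕ) : K) + 1) * u2 ^ (2 * g)) +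
          (- w2 * (hh g u1 u2 - ((g : K) + 1) * u2 ^ g)) := by
        push_cast; ring
      rw [this]
      refine lt_of_le_of_lt (IsUltrametricDist.norm_add_le_max _ _) (max_lt ?_ ?_)
      · rw [norm_mul]
        exact lt_of_le_of_lt (mul_le_of_le_one_left (norm_nonneg _) hs) h2
      · rw [norm_mul, norm_neg]
        exact lt_of_le_of_lt (mul_le_of_le_one_left (norm_nonneg _) hw2) h3
  by_cases h1 : ‖w1 + w2 + u1 ^ (g + 1)‖ = 1
  · have hd : dli g s u1 w1 u2 w2 = (u1 - u2) / (w1 + w2 + u1 ^ (g + 1)) := by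
      unfold dli; rw [if_pos h1]
    have hne : w1 + w2 + u1 ^ (g + 1) ≠ 0 := by
      intro h0; rw [h0, norm_zero] at h1; exact zero_ne_one h1
    have a1 : u1 - u2 = (w1 + w2 + u1 ^ (g + 1)) * dli g s u1 w1 u2 w2 := by
      rw [hd, mul_div_cancel₀ _ hne]
    have a2 : w1 - w2 = (1 + s * hh (2 * g) u1 u2 - w2 * hh g u1 u2) * dli g s u1 w1 u2 w2 := by
      rw [hd, ← mul_div_assoc, eq_div_iff hne]; linear_combination - key
    refine ⟨a1, a2, ?_, hY, hf, hor⟩
    have b1 : ‖u1 - u2‖ = ‖dli g s u1 w1 u2 w2‖ := by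
      conv_lhs => rw [a1]
      rw [norm_mul, h1, one_mul]
    have b2 : ‖w1 - w2‖ ≤ ‖dli g s u1 w1 u2 w2‖ := by
      conv_lhs => rw [a2]
      rw [norm_mul]
      exact mul_le_of_le_one_left (norm_nonneg _) hf
    rw [b1, max_eq_left b2]
  · have h2 := hor.resolve_left h1
    have hd : dli g s u1 w1 u2 w2 = (w1 - w2) / (1 + s * hh (2 * g) u1 u2 - w2 * hh g u1 u2) := by
      unfold dli; rw [if_neg h1]
    have hne : 1 + s * hh (2 * g) u1 u2 - w2 * hh g u1 u2 ≠ 0 := by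
      intro h0; rw [h0, norm_zero] at h2; exact zero_ne_one h2
    have a2 : w1 - w2 = (1 + s * hh (2 * g) u1 u2 - w2 * hh g u1 u2) * dli g s u1 w1 u2 w2 := by
      rw [hd, mul_div_cancel₀ _ hne]
    have a1 : u1 - u2 = (w1 + w2 + u1 ^ (g + 1)) * dli g s u1 w1 u2 w2 := by
      rw [hd, ← mul_div_assoc, eq_div_iff hne]; linear_combination key
    refine ⟨a1, a2, ?_, hY, hf, hor⟩
    have b1 : ‖w1 - w2‖ = ‖dli g s u1 w1 u2 w2‖ := by
      conv_lhs => rw [a2]
      rw [norm_mul, h2, one_mul]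
    have b2 : ‖u1 - u2‖ ≤ ‖dli g s u1 w1 u2 w2‖ := by
      conv_lhs => rw [a1]
      rw [norm_mul]
      exact mul_le_of_le_one_left (norm_nonneg _) hY
    rw [b1, max_eq_right b2]

end PUC
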